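import Pool.Agent.Helper54.SL.Defs

/-!
# SL-10: choice of the constants
-/

set_option autoImplicit false
open Pool.Agent.Helper54.PW

namespace Pool.Agent.Helper54.SL

private theorem as_pow {p : ℕ} [Fact p.Prime] {R : Type} [CommRing R] [CharP R p] (f : R) (i : ℕ) :
    ∃ h : R, f ^ (p ^ i) = h ^ p - h + f := by
  induction i with
  | zero =>
    refine ⟨0, ?_⟩
    rw [zero_pow (Fact.out (p := p.Prime)).ne_zero]
    simp
  | succ i ih =>
    obtain ⟨h, hh⟩ := ih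
    refine ⟨h + f ^ (p ^ i), ?_⟩
    rw [add_pow_char, pow_succ, pow_mul, hh]
    ring

private theorem as_sum {p : ℕ} [Fact p.Prime] {R I : Type} [CommRing R] [CharP R p]
    (s : Finset I) (F G : I → R) (h : ∀ i ∈ s, ∃ h : R, F i = h ^ p - h + G i) :
    ∃ h : R, ∑ i ∈ s, F i = h ^ p - h + ∑ i ∈ s, G i := by
  classical
  induction s using Finset.induction_on with
  | empty =>
    refine ⟨0, ?_⟩
    rw [zero_pow (Fact.out (p := p.Prime)).ne_zero]
    simp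
  | insert a s ha ih =>
    obtain ⟨h1, e1⟩ := h a (Finset.mem_insert_self a s)
    obtain ⟨h2, e2⟩ := ih (fun i hi => h i (Finset.mem_insert_of_mem hi))
    refine ⟨h1 + h2, ?_⟩
    rw [Finset.sum_insert ha, Finset.sum_insert ha, e1, e2, add_pow_char]
    ring

private theorem tr_reflect {p n : ℕ} {R : Type} [CommRing R] (x : R) (hx : x ^ (p ^ n) = x) :
    ∑ i ∈ Finset.range n, x ^ (p ^ (n - i)) = tr p n x := by
  have h1 : ∑ i ∈ Finset.range n, x ^ (p ^ (n - i)) =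
      ∑ i ∈ Finset.range n, x ^ (p ^ (i + 1)) := by
    rw [← Finset.sum_range_reflect (fun i => x ^ (p ^ (i + 1))) n]
    refine Finset.sum_congr rfl fun i hi => ?_
    have := Finset.mem_range.1 hi
    have e : n - 1 - i + 1 = n - i := by omega
    simp only [e]
  have h2 := Finset.sum_range_succ' (fun i => x ^ (p ^ i)) n
  have h3 := Finset.sum_range_succ (fun i => x ^ (p ^ i)) n
  simp only [pow_zero, pow_one] at h2
  rw [h1, tr]
  rw [h3, hx] at h2
  exact (add_right_cancel h2).symm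

theorem exists_consts {p n : ℕ} [Fact p.Prime] (hn : 0 < n) {k 𝔽 : Type} [Field k] [IsAlgClosed k]
    [CharP k p] [Field 𝔽] [Fintype 𝔽] (h𝔽 : Fintype.card 𝔽 = p ^ n) (ι : 𝔽 →+* k)
    (A₀ : AddSubgroup 𝔽) (hA₀ : A₀ ≠ ⊥) :
    ∃ c : ℕ → k, c (n - 1) = 1 ∧ ∀ α : 𝔽, ∃ (e : k) (h : Polynomial k),
      Polynomial.C (ι α) * BP p n c = h ^ p - h + Polynomial.C e * Polynomial.X ^ (p ^ n + 1) ∧
      (e = 0 ↔ ∀ a ∈ A₀, tr p n (α * a) = 0) := by
  classical
  have hp : p.Prime := Fact.out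
  have hq : ∀ x : 𝔽, x ^ (p ^ n) = x := fun x => by rw [← h𝔽]; exact FiniteField.pow_card x
  have : Infinite k := IsAlgClosed.instInfinite
  let φ : 𝔽 ≃ Fin (Fintype.card 𝔽) := Fintype.equivFin 𝔽
  -- a parameter whose small powers are independent over `𝔽`
  let P : (𝔽 → 𝔽) → Polynomial k := fun f =>
    ∑ γ : 𝔽, Polynomial.C (ι (f γ)) * Polynomial.X ^ ((φ γ : ℕ))
  have hP : ∀ f γ, (P f).coeff (φ γ : ℕ) = ι (f γ) := by
    intro f γ
    simp only [P, Polynomial.finsetSum_coeff, Polynomial.coeff_C_mul, Polynomial.coeff_X_pow]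
    rw [Finset.sum_eq_single γ]
    · simp
    · intro b _ hb
      rw [if_neg, mul_zero]
      intro h
      exact hb (φ.injective (Fin.val_injective h)).symm
    · intro h
      exact absurd (Finset.mem_univ γ) h
  obtain ⟨τ, hτ⟩ : ∃ τ : k, ∀ f : 𝔽 → 𝔽, (P f).eval τ = 0 → ∀ γ, f γ = 0 := by
    have hfin : (⋃ f : 𝔽 → 𝔽, {t : k | P f ≠ 0 ∧ (P f).eval t = 0}).Finite := by
      refine Set.finite_iUnion fun f => ?_
      by_cases h : P f = 0
      · have : {t : k | P f ≠ 0 ∧ (P f).eval t = 0} = ∅ := by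
          ext t; simp [h]
        rw [this]; exact Set.finite_empty
      · refine (Polynomial.finite_setOf_isRoot h).subset ?_
        intro t ht
        exact ht.2
    obtain ⟨τ, hτ⟩ := hfin.exists_notMem
    refine ⟨τ, fun f hf γ => ?_⟩
    by_contra hne
    refine hτ (Set.mem_iUnion.2 ⟨f, ?_, hf⟩)
    intro h0
    have := hP f γ
    rw [h0, Polynomial.coeff_zero] at this
    exact hne ((map_eq_zero ι).1 this.symm)
  have hev : ∀ f : 𝔽 → 𝔽, (P f).eval τ = ∑ γ : 𝔽, ι (f γ) * τ ^ ((φ γ : ℕ)) := by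
    intro f
    simp only [P, Polynomial.eval_finsetSum, Polynomial.eval_mul, Polynomial.eval_C,
      Polynomial.eval_pow, Polynomial.eval_X]
  let s : Finset 𝔽 := Finset.univ.filter (fun γ => γ ∈ A₀)
  have hs : ∀ γ, γ ∈ s ↔ γ ∈ A₀ := fun γ => by simp [s]
  have hind : ∀ f : 𝔽 → 𝔽, ∑ γ ∈ s, ι (f γ) * τ ^ ((φ γ : ℕ)) = 0 → ∀ γ ∈ s, f γ = 0 := by
    intro f hf γ hγ
    have := hτ (fun γ => if γ ∈ s then f γ else 0) (by
      rw [hev, ← hf]
      have h1 : ∀ γ : 𝔽, ι (if γ ∈ s then f γ else 0) * τ ^ ((φ γ : ℕ)) =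
          if γ ∈ s then ι (f γ) * τ ^ ((φ γ : ℕ)) else 0 := by
        intro γ
        split_ifs
        · rfl
        · rw [map_zero, zero_mul]
      rw [Finset.sum_congr rfl (fun γ _ => h1 γ), Finset.sum_ite_mem, Finset.univ_inter]) γ
    simpa [hγ] using this
  -- the normalisation
  have hm : 0 < p ^ (n - 1) := pow_pos hp.pos _
  have hpm : p * p ^ (n - 1) = p ^ n := by
    rw [← pow_succ']; congr 1; omega
  obtain ⟨γ₀, hγ₀, hne⟩ : ∃ γ ∈ A₀, γ ≠ 0 := by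
    by_contra hcon
    push Not at hcon
    exact hA₀ ((AddSubgroup.eq_bot_iff_forall A₀).2 hcon)
  have hw : ∑ γ ∈ s, ι γ * (τ ^ ((φ γ : ℕ))) ^ (p ^ (n - 1)) ≠ 0 := by
    intro hw
    have h1 : (∑ γ ∈ s, ι (γ ^ p) * τ ^ ((φ γ : ℕ))) ^ (p ^ (n - 1)) = 0 := by
      rw [← hw, sum_pow_char_pow]
      refine Finset.sum_congr rfl fun γ _ => ?_
      rw [mul_pow, ← map_pow, ← pow_mul, hpm, hq]
    have h2 := hind (fun γ => γ ^ p) ((pow_eq_zero_iff hm.ne').1 h1) γ₀ ((hs _).2 hγ₀)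
    exact hne ((pow_eq_zero_iff hp.ne_zero).1 h2)
  obtain ⟨l, hl⟩ := IsAlgClosed.exists_pow_nat_eq
    ((∑ γ ∈ s, ι γ * (τ ^ ((φ γ : ℕ))) ^ (p ^ (n - 1)))⁻¹) hm
  have hl0 : l ≠ 0 := by
    rintro rfl
    rw [zero_pow hm.ne'] at hl
    exact inv_ne_zero hw hl.symm
  obtain ⟨a, ha⟩ : ∃ a : 𝔽 → k, ∀ γ, a γ = l * τ ^ ((φ γ : ℕ)) := ⟨_, fun _ => rfl⟩
  refine ⟨fun i => ∑ γ ∈ s, ι γ * a γ ^ (p ^ i), ?_, ?_⟩
  · have : ∀ γ, ι γ * a γ ^ (p ^ (n - 1)) =
        l ^ (p ^ (n - 1)) * (ι γ * (τ ^ ((φ γ : ℕ))) ^ (p ^ (n - 1))) := by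
      intro γ
      rw [ha, mul_pow]
      ring
    simp only [this]
    rw [← Finset.mul_sum, hl, inv_mul_cancel₀ hw]
  · intro α
    -- the main computation
    have hterm : ∀ γ : 𝔽, ∀ i ∈ Finset.range n, ∃ h : Polynomial k,
        Polynomial.C (ι α) * (Polynomial.C (ι γ * a γ ^ (p ^ i)) *
          Polynomial.X ^ (p ^ i * (p ^ n + 1))) = h ^ p - h +
          Polynomial.C (ι ((α * γ) ^ (p ^ (n - i))) * a γ) * Polynomial.X ^ (p ^ n + 1) := by
      intro γ i hi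
      have hi' := Finset.mem_range.1 hi
      obtain ⟨h, hh⟩ := as_pow (p := p) (Polynomial.C (ι ((α * γ) ^ (p ^ (n - i))) * a γ) *
        Polynomial.X ^ (p ^ n + 1)) i
      refine ⟨h, ?_⟩
      rw [← hh, mul_pow, ← Polynomial.C_pow, mul_pow (ι _), ← map_pow ι, ← pow_mul (α * γ),
        ← pow_add, Nat.sub_add_cancel hi'.le, hq, ← pow_mul, mul_comm (p ^ n + 1), ← mul_assoc,
        ← Polynomial.C_mul, map_mul ι, mul_assoc (ι α)]
    have htot : ∃ h : Polynomial k,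
        ∑ i ∈ Finset.range n, ∑ γ ∈ s, Polynomial.C (ι α) * (Polynomial.C (ι γ * a γ ^ (p ^ i)) *
          Polynomial.X ^ (p ^ i * (p ^ n + 1))) = h ^ p - h +
        ∑ i ∈ Finset.range n, ∑ γ ∈ s,
          Polynomial.C (ι ((α * γ) ^ (p ^ (n - i))) * a γ) * Polynomial.X ^ (p ^ n + 1) := by
      refine as_sum (p := p) (Finset.range n) _ _ fun i hi => ?_
      exact as_sum (p := p) s _ _ fun γ _ => hterm γ i hi
    obtain ⟨h, hh⟩ := htot
    have htr : ∀ γ : 𝔽, ∑ i ∈ Finset.range n, ι ((α * γ) ^ (p ^ (n - i))) =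
        ι (tr p n (α * γ)) := by
      intro γ
      rw [← map_sum, tr_reflect _ (hq _)]
    refine ⟨∑ γ ∈ s, ι (tr p n (α * γ)) * a γ, h, ?_, ?_⟩
    · have e1 : Polynomial.C (ι α) * BP p n (fun i => ∑ γ ∈ s, ι γ * a γ ^ (p ^ i)) =
          ∑ i ∈ Finset.range n, ∑ γ ∈ s, Polynomial.C (ι α) *
            (Polynomial.C (ι γ * a γ ^ (p ^ i)) * Polynomial.X ^ (p ^ i * (p ^ n + 1))) := by
        rw [BP, Finset.mul_sum]
        refine Finset.sum_congr rfl fun i _ => ?_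
        rw [map_sum, Finset.sum_mul, Finset.mul_sum]
      rw [e1, hh]
      congr 1
      rw [Finset.sum_comm, map_sum, Finset.sum_mul]
      refine Finset.sum_congr rfl fun γ _ => ?_
      rw [← htr, Finset.sum_mul, map_sum, Finset.sum_mul]
    · have e2 : ∑ γ ∈ s, ι (tr p n (α * γ)) * a γ =
          l * ∑ γ ∈ s, ι (tr p n (α * γ)) * τ ^ ((φ γ : ℕ)) := by
        rw [Finset.mul_sum]
        refine Finset.sum_congr rfl fun γ _ => ?_
        rw [ha]
        ring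
      rw [e2, mul_eq_zero, or_iff_right hl0]
      constructor
      · intro h0 γ hγ
        exact hind (fun γ => tr p n (α * γ)) h0 γ ((hs γ).2 hγ)
      · intro h0
        refine Finset.sum_eq_zero fun γ hγ => ?_
        rw [h0 γ ((hs γ).1 hγ), map_zero, zero_mul]

end Pool.Agent.Helper54.SL
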